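import Pool.Agent.H46R3.DG.Stmts

/-!
# TaskF2: from exponential sums to blocks
-/

set_option autoImplicit false

namespace Pool.Agent.H46R3.DG

open Finset
open Pool.Agent.Helper602.MK (ee)

theorem taskF2 (h1 : TaskF1) : TaskF2 := by
  intro p q s hp hq hE C hC
  obtain ⟨δ, K, hδ, hK, hS⟩ := hE C hC
  have hq2 : 2 ≤ q := hq.two_le
  have hlq : 0 ≤ Real.log q := Real.log_nonneg (by exact_mod_cast (by omega : 1 ≤ q))
  refine ⟨δ / 2, K * (1 + C * Real.log q * (1 / (δ / 2))), by positivity, by positivity, ?_⟩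
  intro N t l w hN hst hle hw
  have hN1 : (1 : ℝ) ≤ N := by exact_mod_cast hN
  have hN0 : (0 : ℝ) < N := by linarith
  have hB : 0 ≤ K * (N : ℝ) ^ (1 - δ) := by positivity
  have h2 := h1 q t l w N (fun n => p ^ n) (K * (N : ℝ) ^ (1 - δ)) hq2 hw hB (by
    intro h hh0 hh1 hh2
    obtain ⟨i, a, ha, rfl⟩ := Nat.exists_eq_pow_mul_and_not_dvd hh0.ne' q hq.ne_one
    have hil : i < l := by
      by_contra hcon
      push Not at hcon
      exact hh2 (Dvd.dvd.mul_right (pow_dvd_pow q hcon) a)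
    have hq0 : (0 : ℝ) < q := by exact_mod_cast hq.pos
    have h3 := hS N (t + l - i) a hN (by omega) (by
      refine le_trans ?_ hle
      exact_mod_cast Nat.sub_le _ _) ha
    refine le_trans (le_of_eq ?_) h3
    congr 1
    refine Finset.sum_congr rfl fun n _ => ?_
    congr 1
    have h4 : (q : ℝ) ^ (t + l) = (q : ℝ) ^ i * (q : ℝ) ^ (t + l - i) := by
      rw [← pow_add]
      congr 1
      omega
    rw [h4]
    push_cast
    have h5 : (0 : ℝ) < (q : ℝ) ^ i := by positivity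
    have h6 : (0 : ℝ) < (q : ℝ) ^ (t + l - i) := by positivity
    field_simp)
  refine h2.trans ?_
  have hlog : Real.log N ≤ (N : ℝ) ^ (δ / 2) / (δ / 2) :=
    Real.log_le_rpow_div hN0.le (by positivity)
  have hone : 1 ≤ (N : ℝ) ^ (δ / 2) := Real.one_le_rpow hN1 (by positivity)
  have h3 : 1 + ((t + l : ℕ) : ℝ) * Real.log q ≤
      (1 + C * Real.log q * (1 / (δ / 2))) * (N : ℝ) ^ (δ / 2) := by
    have h4 : ((t + l : ℕ) : ℝ) * Real.log q ≤ (C * Real.log N) * Real.log q :=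
      mul_le_mul_of_nonneg_right hle hlq
    have h5 : (C * Real.log N) * Real.log q ≤
        (C * ((N : ℝ) ^ (δ / 2) / (δ / 2))) * Real.log q :=
      mul_le_mul_of_nonneg_right (mul_le_mul_of_nonneg_left hlog hC.le) hlq
    have h6 : (C * ((N : ℝ) ^ (δ / 2) / (δ / 2))) * Real.log q =
        C * Real.log q * (1 / (δ / 2)) * (N : ℝ) ^ (δ / 2) := by ring
    rw [add_mul, one_mul]
    linarith
  calc (1 + ((t + l : ℕ) : ℝ) * Real.log q) * (K * (N : ℝ) ^ (1 - δ))
      ≤ ((1 + C * Real.log q * (1 / (δ / 2))) * (N : ℝ) ^ (δ / 2)) *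
          (K * (N : ℝ) ^ (1 - δ)) := mul_le_mul_of_nonneg_right h3 hB
    _ = K * (1 + C * Real.log q * (1 / (δ / 2))) *
          ((N : ℝ) ^ (δ / 2) * (N : ℝ) ^ (1 - δ)) := by ring
    _ = K * (1 + C * Real.log q * (1 / (δ / 2))) * (N : ℝ) ^ (1 - δ / 2) := by
        rw [← Real.rpow_add hN0]
        congr 2
        ring

end Pool.Agent.H46R3.DG
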